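import Pool.Agent.H608R4.KM.Stm

/-!
# Rotation of the frame
-/

set_option autoImplicit false

namespace Pool.Agent.TH547.KM

open Finset Pool.Agent.H608R4.KM

lemma exists_rot (C S : ℝ) : ∃ p q : ℝ, p ^ 2 + q ^ 2 = 1 ∧
    (4 * p ^ 3 * q - 4 * p * q ^ 3) * C + (p ^ 4 - 6 * p ^ 2 * q ^ 2 + q ^ 4) * S = 0 ∧
    0 ≤ (p ^ 4 - 6 * p ^ 2 * q ^ 2 + q ^ 4) * C - (4 * p ^ 3 * q - 4 * p * q ^ 3) * S := by
  by_cases hZ : (⟨C, S⟩ : ℂ) = 0
  · have h1 : C = 0 := congrArg Complex.re hZ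
    have h2 : S = 0 := congrArg Complex.im hZ
    exact ⟨1, 0, by norm_num, by rw [h1, h2]; ring, by rw [h1, h2]; norm_num⟩
  · set Z : ℂ := ⟨C, S⟩ with hZd
    have hn : (‖Z‖ : ℂ) ≠ 0 := by
      rw [Ne, Complex.ofReal_eq_zero, norm_eq_zero]
      exact hZ
    obtain ⟨w, hw⟩ := IsAlgClosed.exists_pow_nat_eq ((starRingEnd ℂ) Z / (‖Z‖ : ℂ))
      (n := 4) (by norm_num)
    have hw1 : ‖w‖ = 1 := by
      have h1 : ‖w‖ ^ 4 = 1 := by
        rw [← norm_pow, hw, norm_div, RCLike.norm_conj, Complex.norm_real, norm_norm]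
        exact div_self (norm_ne_zero_iff.2 hZ)
      exact (pow_eq_one_iff_of_nonneg (norm_nonneg w) (by norm_num)).1 h1
    have hwZ : w ^ 4 * Z = (‖Z‖ : ℂ) := by
      rw [hw, div_mul_eq_mul_div, mul_comm, Complex.mul_conj, Complex.normSq_eq_norm_sq]
      rw [div_eq_iff hn]
      push_cast
      ring
    have hre := congrArg Complex.re hwZ
    have him := congrArg Complex.im hwZ
    have hw4 : w ^ 4 = ⟨w.re ^ 4 - 6 * w.re ^ 2 * w.im ^ 2 + w.im ^ 4,
        4 * w.re ^ 3 * w.im - 4 * w.re * w.im ^ 3⟩ := by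
      apply Complex.ext
      · simp only [pow_succ, pow_zero, one_mul, Complex.mul_re, Complex.mul_im]
        ring
      · simp only [pow_succ, pow_zero, one_mul, Complex.mul_re, Complex.mul_im]
        ring
    rw [hw4, Complex.mul_re, Complex.ofReal_re] at hre
    rw [hw4, Complex.mul_im, Complex.ofReal_im] at him
    simp only [hZd] at hre him
    refine ⟨w.re, w.im, ?_, ?_, ?_⟩
    · have h1 := Complex.sq_norm w
      rw [hw1, Complex.normSq_apply] at h1
      nlinarith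
    · linarith
    · rw [hre]
      exact norm_nonneg _

theorem t_FR : S_FR := by
  intro n x y h
  obtain ⟨p, q, hpq, h0, h1⟩ := exists_rot (C4 x y) (S4 x y)
  have hC4 : C4 (fun i => p * x i - q * y i) (fun i => q * x i + p * y i) =
      (p ^ 4 - 6 * p ^ 2 * q ^ 2 + q ^ 4) * C4 x y - (4 * p ^ 3 * q - 4 * p * q ^ 3) * S4 x y := by
    unfold C4 S4
    rw [mul_sum, mul_sum, ← sum_sub_distrib]
    refine sum_congr rfl fun i _ => ?_
    ring
  have hS4 : S4 (fun i => p * x i - q * y i) (fun i => q * x i + p * y i) =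
      (4 * p ^ 3 * q - 4 * p * q ^ 3) * C4 x y + (p ^ 4 - 6 * p ^ 2 * q ^ 2 + q ^ 4) * S4 x y := by
    unfold C4 S4
    rw [mul_sum, mul_sum, ← sum_add_distrib]
    refine sum_congr rfl fun i _ => ?_
    ring
  refine ⟨fun i => p * x i - q * y i, fun i => q * x i + p * y i, ?_, ?_, ?_, ?_, ?_, ?_, ?_, ?_⟩
  · intro i
    linear_combination (p ^ 2 + q ^ 2) * h i + hpq
  · intro i j
    unfold u
    linear_combination (x i * x j + y i * y j) * hpq
  · intro i j
    unfold v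
    linear_combination (x i * y j - y i * x j) * hpq
  · unfold R1
    rw [sum_sub_distrib, sum_add_distrib, ← mul_sum, ← mul_sum, ← mul_sum, ← mul_sum]
    linear_combination ((∑ i, x i) ^ 2 + (∑ i, y i) ^ 2) * hpq
  · unfold R2
    have e1 : ∑ i, ((p * x i - q * y i) ^ 2 - (q * x i + p * y i) ^ 2) =
        (p ^ 2 - q ^ 2) * ∑ i, (x i ^ 2 - y i ^ 2) - (2 * p * q) * ∑ i, 2 * x i * y i := by
      rw [mul_sum, mul_sum, ← sum_sub_distrib]
      refine sum_congr rfl fun i _ => ?_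
      ring
    have e2 : ∑ i, 2 * (p * x i - q * y i) * (q * x i + p * y i) =
        (2 * p * q) * ∑ i, (x i ^ 2 - y i ^ 2) + (p ^ 2 - q ^ 2) * ∑ i, 2 * x i * y i := by
      rw [mul_sum, mul_sum, ← sum_add_distrib]
      refine sum_congr rfl fun i _ => ?_
      ring
    rw [e1, e2]
    linear_combination ((∑ i, (x i ^ 2 - y i ^ 2)) ^ 2 + (∑ i, 2 * x i * y i) ^ 2) *
      (p ^ 2 + q ^ 2 + 1) * hpq
  · unfold R4
    rw [hC4, hS4]
    linear_combination (C4 x y ^ 2 + S4 x y ^ 2) * ((p ^ 2 + q ^ 2) ^ 2 + 1) *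
      (p ^ 2 + q ^ 2 + 1) * hpq
  · rw [hS4]
    exact h0
  · rw [hC4]
    exact h1

end Pool.Agent.TH547.KM
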